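import Mathlib
import Pool.Agent.H28.FP.G2
import Pool.Agent.H28.FP.G1
import Pool.Agent.H28.FP.Val
import Pool.Agent.H88.A4.Defs

set_option autoImplicit false

/-!
# W1, FINITE PLACES for the interface of H88/A4: bridge to the lemmas of H28/FP (proved)
-/

open scoped NumberField

namespace Pool.Agent.H28.A4

open H88.A4

variable {R : Type} [CommRing R]

/-- the block in the notation of H28/FP -/
def bl (β : Blk R) : FP.Blk R := ⟨β.b1, β.b2, β.b3, β.c1, β.c2, β.c3⟩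

/-- the row in the notation of H28/FP -/
def rw4 (π : Row R) : Fin 4 → R := ![π.p1, π.p2, π.q1, π.q2]

theorem eqs_of {β : Blk R} {π : Row R} {r r' u v : R} (h : Sol β π r r' u v) :
    FP.Eqs (bl β) (rw4 π) r r' u v := ⟨h.e1, h.e2, h.e3, h.e4⟩

/-- exchange of `b` and `c` -/
def sw (β : Blk R) : Blk R := ⟨β.c1, β.c2, β.c3, β.b1, β.b2, β.b3⟩

/-- exchange of `p` and `q` -/
def swr (π : Row R) : Row R := ⟨π.q1, π.q2, π.p1, π.p2⟩

theorem sw_D1 (β : Blk R) : (sw β).D1 = β.D3 := rfl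

theorem sw_D3 (β : Blk R) : (sw β).D3 = β.D1 := rfl

theorem sw_D2 (β : Blk R) : (sw β).D2 = β.D2 := by
  simp only [sw, Blk.D2]
  ring

theorem sw_E (β : Blk R) : (sw β).E = β.E := by
  simp only [Blk.E, sw_D1, sw_D2, sw_D3]
  ring

theorem sw_br (β : Blk R) (π π' : Row R) : (sw β).br (swr π) (swr π') = β.br π π' := by
  simp only [sw, Blk.br, swr, Blk.D1, Blk.D3]
  ring

theorem sw_Sol {β : Blk R} {π : Row R} {r r' u v : R} (h : Sol β π r r' u v) :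
    Sol (sw β) (swr π) r' r v u := by
  obtain ⟨h1, h2, h3, h4⟩ := h
  refine ⟨?_, ?_, ?_, ?_⟩
  · simpa only [sw, swr, Blk.D1, Blk.D3, Blk.Ab, Blk.Ac] using h4
  · simp only [sw, swr, Blk.D1, Blk.D2, Blk.D3, Blk.Ab, Blk.Ac] at h3 ⊢
    linear_combination h3
  · simp only [sw, swr, Blk.D1, Blk.D2, Blk.D3, Blk.Ab, Blk.Ac] at h2 ⊢
    linear_combination h2
  · simpa only [sw, swr, Blk.D1, Blk.D3, Blk.Ab, Blk.Ac] using h1

/-- (4.1): `E u = adj(b)[eta_b]` -/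
theorem E_mul {β : Blk R} {π : Row R} {r r' u v : R} (h : Sol β π r r' u v) :
    β.E * u = β.Ab (β.eb1 π) (β.eb2 π) (β.eb1 π) (β.eb2 π) :=
  FP.idn_E (bl β) (rw4 π) r r' u v (eqs_of h)

/-- (4.3): `eta_b ^ eta_b' = D1 [π, π']` -/
theorem eta_wedge (β : Blk R) (π π' : Row R) :
    β.eb1 π * β.eb2 π' - β.eb2 π * β.eb1 π' = β.D1 * β.br π π' :=
  FP.idn_w (bl β) (rw4 π) (rw4 π')

end Pool.Agent.H28.A4
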