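import Mathlib
import Pool.Agent.H28.A4.Br

set_option autoImplicit false

/-!
# W1, FINITE PLACES: classes by ideals (S2 of the interface), algebra (proved)

`A` a binary quadratic form, `e` a vector, `δ² = -det A`: `z = A(e, η) + δ (e ^ η)` and its conjugate
have product `A(e) A(η)`, and `z z̄' - z̄ z' = -2 δ A(e) (η ^ η')`.
-/

open scoped NumberField

namespace Pool.Agent.H28.A4

open H88.A4

/-- If `E` divides `z zb` and `zb`, `zb'` have the same ideals modulo `E`, then `E` divides `z zb'`. -/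
theorem cls_dvd {S : Type} [CommRing S] {E z zb zb' : S} (h : E ∣ z * zb)
    (h2 : Ideal.span {zb} ⊔ Ideal.span {E} = Ideal.span {zb'} ⊔ Ideal.span {E}) :
    E ∣ z * zb' := by
  rw [← Ideal.mem_span_singleton]
  have h3 : zb' ∈ Ideal.span {zb} ⊔ Ideal.span {E} := by
    rw [h2]
    exact Ideal.mem_sup_left (Ideal.mem_span_singleton_self _)
  obtain ⟨a, ha, b, hb, hab⟩ := Submodule.mem_sup.1 h3
  obtain ⟨c, rfl⟩ := Ideal.mem_span_singleton.1 ha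
  obtain ⟨d, rfl⟩ := Ideal.mem_span_singleton.1 hb
  rw [← hab, Ideal.mem_span_singleton]
  obtain ⟨k, hk⟩ := h
  exact ⟨k * c + z * d, by linear_combination c * hk⟩

section

variable {S : Type} [CommRing S]

/-- `A(e, η) + δ (e ^ η)` for the form `b3 x1² - 2 b2 x1 x2 + b1 x2²` -/
def zf (β : Blk S) (δ e1 e2 x1 x2 : S) : S := β.Ab e1 e2 x1 x2 + δ * (e1 * x2 - e2 * x1)

theorem zf_mul (β : Blk S) (δ e1 e2 x1 x2 : S) (hδ : δ ^ 2 = -β.D1) :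
    zf β δ e1 e2 x1 x2 * zf β (-δ) e1 e2 x1 x2 = β.Ab e1 e2 e1 e2 * β.Ab x1 x2 x1 x2 := by
  simp only [zf, Blk.Ab, Blk.D1] at hδ ⊢
  linear_combination (-(e1 * x2 - e2 * x1) ^ 2) * hδ

theorem zf_sub (β : Blk S) (δ e1 e2 x1 x2 y1 y2 : S) :
    zf β δ e1 e2 x1 x2 * zf β (-δ) e1 e2 y1 y2 - zf β (-δ) e1 e2 x1 x2 * zf β δ e1 e2 y1 y2 =
      -(2 * δ * β.Ab e1 e2 e1 e2 * (x1 * y2 - x2 * y1)) := by
  simp only [zf, Blk.Ab]
  ring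

/-- the class relation for one multiplier `e` -/
theorem cls_one (β : Blk S) (δ e1 e2 x1 x2 y1 y2 E : S) (hδ : δ ^ 2 = -β.D1)
    (hx : E ∣ β.Ab x1 x2 x1 x2)
    (h1 : Ideal.span {zf β δ e1 e2 x1 x2} ⊔ Ideal.span {E} =
      Ideal.span {zf β δ e1 e2 y1 y2} ⊔ Ideal.span {E})
    (h2 : Ideal.span {zf β (-δ) e1 e2 x1 x2} ⊔ Ideal.span {E} =
      Ideal.span {zf β (-δ) e1 e2 y1 y2} ⊔ Ideal.span {E}) :
    E ∣ 2 * δ * β.Ab e1 e2 e1 e2 * (x1 * y2 - x2 * y1) := by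
  have k1 : E ∣ zf β δ e1 e2 x1 x2 * zf β (-δ) e1 e2 y1 y2 := by
    refine cls_dvd ?_ h2
    rw [zf_mul _ _ _ _ _ _ hδ]
    exact Dvd.dvd.mul_left hx _
  have k2 : E ∣ zf β (-δ) e1 e2 x1 x2 * zf β δ e1 e2 y1 y2 := by
    refine cls_dvd ?_ h1
    rw [mul_comm, zf_mul _ _ _ _ _ _ hδ]
    exact Dvd.dvd.mul_left hx _
  have k3 := dvd_sub k1 k2
  rw [zf_sub] at k3
  exact (dvd_neg.1 k3)

/-- three multipliers: `E² ∣ (4 D1² n)²` -/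
theorem cls_three (β : Blk S) (δ w n E : S) (hδ : δ ^ 2 = -β.D1) (hw : w = β.D1 * n)
    (h1 : E ∣ 2 * δ * β.Ab 1 0 1 0 * w) (h2 : E ∣ 2 * δ * β.Ab 0 1 0 1 * w)
    (h3 : E ∣ 2 * δ * β.Ab 1 (-1) 1 (-1) * w) : E ^ 2 ∣ (4 * β.D1 ^ 2 * n) ^ 2 := by
  have key : ∀ x y : S, E ∣ 2 * δ * x * w → E ∣ 2 * δ * y * w →
      E ^ 2 ∣ -(4 * β.D1 ^ 3 * n ^ 2) * (x * y) := by
    intro x y hx hy
    have := mul_dvd_mul hx hy
    rw [← pow_two] at this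
    have e1 : 2 * δ * x * w * (2 * δ * y * w) = -(4 * β.D1 ^ 3 * n ^ 2) * (x * y) := by
      rw [hw]
      linear_combination 4 * x * y * β.D1 ^ 2 * n ^ 2 * hδ
    rwa [e1] at this
  have e2 : (4 * β.D1 ^ 2 * n) ^ 2 = -(4 * β.D1 ^ 3 * n ^ 2) * (β.Ab 1 (-1) 1 (-1) * β.Ab 1 (-1) 1 (-1)) -
      2 * (-(4 * β.D1 ^ 3 * n ^ 2) * (β.Ab 1 0 1 0 * β.Ab 0 1 0 1)) -
      2 * (-(4 * β.D1 ^ 3 * n ^ 2) * (β.Ab 1 (-1) 1 (-1) * β.Ab 1 0 1 0)) -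
      2 * (-(4 * β.D1 ^ 3 * n ^ 2) * (β.Ab 1 (-1) 1 (-1) * β.Ab 0 1 0 1)) +
      (-(4 * β.D1 ^ 3 * n ^ 2) * (β.Ab 1 0 1 0 * β.Ab 1 0 1 0)) +
      (-(4 * β.D1 ^ 3 * n ^ 2) * (β.Ab 0 1 0 1 * β.Ab 0 1 0 1)) := by
    simp only [Blk.Ab, Blk.D1]
    ring
  rw [e2]
  exact dvd_add (dvd_add (dvd_sub (dvd_sub (dvd_sub (key _ _ h3 h3) (Dvd.dvd.mul_left
    (key _ _ h1 h2) _)) (Dvd.dvd.mul_left (key _ _ h3 h1) _)) (Dvd.dvd.mul_left (key _ _ h3 h2) _))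
    (key _ _ h1 h1)) (key _ _ h2 h2)

end

/-- the image of a block under a ring homomorphism -/
def mapB {R S : Type} [CommRing R] [CommRing S] (f : R →+* S) (β : Blk R) : Blk S :=
  ⟨f β.b1, f β.b2, f β.b3, f β.c1, f β.c2, f β.c3⟩

theorem mapB_D1 {R S : Type} [CommRing R] [CommRing S] (f : R →+* S) (β : Blk R) :
    (mapB f β).D1 = f β.D1 := by
  simp [mapB, Blk.D1]

theorem mapB_Ab {R S : Type} [CommRing R] [CommRing S] (f : R →+* S) (β : Blk R)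
    (x1 x2 y1 y2 : R) : (mapB f β).Ab (f x1) (f x2) (f y1) (f y2) = f (β.Ab x1 x2 y1 y2) := by
  simp [mapB, Blk.Ab]

end Pool.Agent.H28.A4
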