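import Mathlib
import Pool.Agent.H28.A4.Cls
import Pool.Agent.H88.A4.Geo

set_option autoImplicit false

/-!
# W1, FINITE PLACES: bound for `E` at the embeddings, number of divisors (proved from `ideal_div`)
-/

open scoped NumberField

namespace Pool.Agent.H28.A4

open H88.A4

theorem E_le (K : Type) [Field K] [NumberField K] (H : ℝ) (hH : 1 ≤ H) (β : Blk (𝓞 K))
    (h : β.All (Bd H)) (ψ : K →+* ℂ) : ‖ψ (β.E : K)‖ ≤ 20 * H ^ 4 := by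
  obtain ⟨h1, h2, h3, h4, h5, h6⟩ := h
  have k1 := h1 ψ
  have k2 := h2 ψ
  have k3 := h3 ψ
  have k4 := h4 ψ
  have k5 := h5 ψ
  have k6 := h6 ψ
  have H0 : 0 ≤ H := by linarith
  have mulb : ∀ x y : ℂ, ∀ a b : ℝ, ‖x‖ ≤ a → ‖y‖ ≤ b → 0 ≤ a → ‖x * y‖ ≤ a * b := by
    intro x y a b hx hy ha
    rw [norm_mul]
    exact mul_le_mul hx hy (norm_nonneg _) ha
  have hE : ψ (β.E : K) = (ψ (β.b1 : K) * ψ (β.b3 : K) - ψ (β.b2 : K) * ψ (β.b2 : K)) *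
      (ψ (β.c1 : K) * ψ (β.c3 : K) - ψ (β.c2 : K) * ψ (β.c2 : K)) -
      (ψ (β.b1 : K) * ψ (β.c3 : K) + ψ (β.b3 : K) * ψ (β.c1 : K) -
        (ψ (β.b2 : K) * ψ (β.c2 : K) + ψ (β.b2 : K) * ψ (β.c2 : K))) *
      (ψ (β.b1 : K) * ψ (β.c3 : K) + ψ (β.b3 : K) * ψ (β.c1 : K) -
        (ψ (β.b2 : K) * ψ (β.c2 : K) + ψ (β.b2 : K) * ψ (β.c2 : K))) := by
    simp only [Blk.E, Blk.D1, Blk.D2, Blk.D3, map_sub, map_add, map_mul, map_pow, map_ofNat]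
    ring
  have n1 : ‖ψ (β.b1 : K) * ψ (β.b3 : K) - ψ (β.b2 : K) * ψ (β.b2 : K)‖ ≤ 2 * (H * H) := by
    refine (norm_sub_le _ _).trans ?_
    have := mulb _ _ _ _ k1 k3 H0
    have := mulb _ _ _ _ k2 k2 H0
    linarith
  have n3 : ‖ψ (β.c1 : K) * ψ (β.c3 : K) - ψ (β.c2 : K) * ψ (β.c2 : K)‖ ≤ 2 * (H * H) := by
    refine (norm_sub_le _ _).trans ?_
    have := mulb _ _ _ _ k4 k6 H0
    have := mulb _ _ _ _ k5 k5 H0
    linarith
  have n2 : ‖ψ (β.b1 : K) * ψ (β.c3 : K) + ψ (β.b3 : K) * ψ (β.c1 : K) -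
      (ψ (β.b2 : K) * ψ (β.c2 : K) + ψ (β.b2 : K) * ψ (β.c2 : K))‖ ≤ 4 * (H * H) := by
    refine (norm_sub_le _ _).trans ?_
    have e1 := mulb _ _ _ _ k1 k6 H0
    have e2 := mulb _ _ _ _ k3 k4 H0
    have e3 := mulb _ _ _ _ k2 k5 H0
    have e4 := norm_add_le (ψ (β.b1 : K) * ψ (β.c3 : K)) (ψ (β.b3 : K) * ψ (β.c1 : K))
    have e5 := norm_add_le (ψ (β.b2 : K) * ψ (β.c2 : K)) (ψ (β.b2 : K) * ψ (β.c2 : K))
    linarith
  rw [hE]
  refine (norm_sub_le _ _).trans ?_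
  have hp : 0 ≤ H * H := mul_nonneg H0 H0
  have e1 := mulb _ _ _ _ n1 n3 (by linarith)
  have e2 := mulb _ _ _ _ n2 n2 (by linarith)
  nlinarith

/-- the number of ideals that divide an element with bounded embeddings -/
theorem div_card (d : ℕ) (hd : 0 < d) (ε : ℝ) (hε : 0 < ε) : ∃ C : ℝ, 0 < C ∧
    ∀ (L : Type) [Field L] [NumberField L], Module.finrank ℚ L ≤ 2 * d →
    ∀ H : ℝ, 1 ≤ H → ∀ x : 𝓞 L, x ≠ 0 → (∀ φ : L →+* ℂ, ‖φ (x : L)‖ ≤ 20 * H ^ 4) →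
    ∀ S : Finset (Ideal (𝓞 L)), (∀ J ∈ S, J ∣ Ideal.span {x}) →
      (S.card : ℝ) ^ 6 ≤ C * H ^ ε := by
  have hd' : (0 : ℝ) < d := by exact_mod_cast hd
  obtain ⟨C, hC, h⟩ := ideal_div (2 * d) (ε / (48 * d)) (by positivity)
  refine ⟨C ^ 6 * (20 : ℝ) ^ (ε / 4), by positivity, ?_⟩
  intro L _ _ hL H hH x hx hb S hS
  have h1 := h L hL (Ideal.span {x}) (by rwa [Ne, Ideal.span_singleton_eq_bot]) S hS
  rw [← nm_eq L x] at h1
  have hB : (1 : ℝ) ≤ 20 * H ^ 4 := by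
    have := one_le_pow₀ hH (n := 4)
    linarith
  have h2 : nm (x : L) ≤ (20 * H ^ 4) ^ (2 * d) := by
    rw [nm]
    refine (Finset.prod_le_prod (fun φ _ => norm_nonneg _) (fun φ _ => hb φ)).trans ?_
    rw [Finset.prod_const, Finset.card_univ]
    refine pow_le_pow_right₀ hB ?_
    rw [NumberField.Embeddings.card]
    exact hL
  have h0 : 0 ≤ nm (x : L) := Finset.prod_nonneg fun φ _ => norm_nonneg _
  have h3 : (S.card : ℝ) ≤ C * ((20 * H ^ 4) ^ (2 * d)) ^ (ε / (48 * d)) :=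
    h1.trans (mul_le_mul_of_nonneg_left (Real.rpow_le_rpow h0 h2 (by positivity)) hC.le)
  have hH0 : (0 : ℝ) ≤ H := by linarith
  have h4 : (S.card : ℝ) ^ 6 ≤ (C * ((20 * H ^ 4) ^ (2 * d)) ^ (ε / (48 * d))) ^ 6 :=
    pow_le_pow_left₀ (by positivity) h3 6
  refine h4.trans (le_of_eq ?_)
  rw [mul_pow, mul_assoc]
  congr 1
  rw [← Real.rpow_natCast (20 * H ^ 4) (2 * d), ← Real.rpow_mul (by positivity),
    ← Real.rpow_natCast _ 6, ← Real.rpow_mul (by positivity),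
    Real.mul_rpow (by norm_num) (by positivity), ← Real.rpow_natCast H 4,
    ← Real.rpow_mul hH0]
  congr 2
  · push_cast
    field_simp
    norm_num
  · push_cast
    field_simp
    norm_num

end Pool.Agent.H28.A4
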