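import Mathlib

set_option autoImplicit false

/-!
# W1, FINITE PLACES: the field `K(√-D)` (proved)
-/

open scoped NumberField

namespace Pool.Agent.H28.A4

theorem desc (K L : Type) [Field K] [NumberField K] [Field L] [NumberField L] [Algebra K L]
    (a b : 𝓞 K) (ha : a ≠ 0) (h : algebraMap (𝓞 K) (𝓞 L) a ∣ algebraMap (𝓞 K) (𝓞 L) b) :
    a ∣ b := by
  obtain ⟨c, hc⟩ := h
  have ha' : (a : K) ≠ 0 := by
    rw [Ne, NumberField.RingOfIntegers.coe_eq_zero_iff]
    exact ha
  have haL : algebraMap K L (a : K) ≠ 0 := by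
    rw [Ne, map_eq_zero]
    exact ha'
  have h1 : algebraMap K L (b : K) = algebraMap K L (a : K) * (c : L) := by
    have h0 : algebraMap (𝓞 L) L (algebraMap (𝓞 K) (𝓞 L) b) =
        algebraMap (𝓞 L) L (algebraMap (𝓞 K) (𝓞 L) a) * algebraMap (𝓞 L) L c := by
      rw [hc, map_mul]
    exact h0
  have h2 : algebraMap K L ((b : K) / (a : K)) = (c : L) := by
    rw [map_div₀, h1]
    field_simp
  have h3 : IsIntegral ℤ ((b : K) / (a : K)) := by
    have h4 : IsIntegral ℤ (algebraMap K L ((b : K) / (a : K))) := by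
      rw [h2]
      exact NumberField.RingOfIntegers.isIntegral_coe c
    exact (isIntegral_algebraMap_iff (FaithfulSMul.algebraMap_injective K L)).1 h4
  obtain ⟨q, hq⟩ : ∃ q : 𝓞 K, (q : K) = (b : K) / (a : K) :=
    ⟨⟨(b : K) / (a : K), (mem_integralClosure_iff ℤ K).2 h3⟩, rfl⟩
  refine ⟨q, ?_⟩
  have h5 : algebraMap (𝓞 K) K b = algebraMap (𝓞 K) K (a * q) := by
    rw [map_mul]
    change (b : K) = (a : K) * (q : K)
    rw [hq]
    field_simp
  exact FaithfulSMul.algebraMap_injective (𝓞 K) K h5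

theorem exists_ext (K : Type) [Field K] [NumberField K] (D : 𝓞 K) :
    ∃ (L : Type) (_ : Field L) (_ : NumberField L) (f : 𝓞 K →+* 𝓞 L) (δ : 𝓞 L),
      Module.finrank ℚ L ≤ 2 * Module.finrank ℚ K ∧ δ ^ 2 = -(f D) ∧
      (∀ a b : 𝓞 K, a ≠ 0 → f a ∣ f b → a ∣ b) ∧
      (∀ φ : L →+* ℂ, ∃ ψ : K →+* ℂ, ∀ x : 𝓞 K, φ ((f x : 𝓞 L) : L) = ψ (x : K)) ∧
      Function.Injective f := by
  obtain ⟨δ0, hδ0⟩ := IsAlgClosed.exists_pow_nat_eq (algebraMap K (AlgebraicClosure K) (-(D : K)))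
    (show 0 < 2 by norm_num)
  have hint : IsIntegral K δ0 := Algebra.IsIntegral.isIntegral δ0
  have : FiniteDimensional K (IntermediateField.adjoin K {δ0}) :=
    IntermediateField.adjoin.finiteDimensional hint
  have : FiniteDimensional ℚ (IntermediateField.adjoin K {δ0}) := FiniteDimensional.trans ℚ K _
  have : CharZero (IntermediateField.adjoin K {δ0}) :=
    charZero_of_injective_algebraMap (FaithfulSMul.algebraMap_injective K _)
  have hN : NumberField (IntermediateField.adjoin K {δ0}) := ⟨⟩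
  have hdeg : Module.finrank K (IntermediateField.adjoin K {δ0}) ≤ 2 := by
    rw [IntermediateField.adjoin.finrank hint]
    have hp : Polynomial.aeval δ0 (Polynomial.X ^ 2 - Polynomial.C (-(D : K))) = 0 := by
      rw [map_sub, map_pow, Polynomial.aeval_X, Polynomial.aeval_C, hδ0, sub_self]
    have h0 : (Polynomial.X ^ 2 - Polynomial.C (-(D : K))) ≠ 0 :=
      Polynomial.X_pow_sub_C_ne_zero (by norm_num) _
    refine (Polynomial.natDegree_le_of_dvd (minpoly.dvd K δ0 hp) h0).trans ?_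
    rw [Polynomial.natDegree_X_pow_sub_C]
  have hmem : δ0 ∈ IntermediateField.adjoin K {δ0} :=
    IntermediateField.subset_adjoin K _ (Set.mem_singleton δ0)
  obtain ⟨δ1, hδ1⟩ : ∃ δ1 : IntermediateField.adjoin K {δ0}, (δ1 : AlgebraicClosure K) = δ0 :=
    ⟨⟨δ0, hmem⟩, rfl⟩
  have hδ2 : δ1 ^ 2 = algebraMap K (IntermediateField.adjoin K {δ0}) (-(D : K)) := by
    apply Subtype.ext
    rw [show ((δ1 ^ 2 : IntermediateField.adjoin K {δ0}) : AlgebraicClosure K) =
      (δ1 : AlgebraicClosure K) ^ 2 from rfl, hδ1, hδ0]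
    rfl
  have hδ3 : IsIntegral ℤ δ1 := by
    have h5 : IsIntegral ℤ (δ1 ^ 2) := by
      rw [hδ2]
      exact (NumberField.RingOfIntegers.isIntegral_coe (-D)).algebraMap
    exact h5.of_pow (by norm_num)
  refine ⟨IntermediateField.adjoin K {δ0}, inferInstance, hN,
    algebraMap (𝓞 K) (𝓞 (IntermediateField.adjoin K {δ0})), ⟨δ1, (mem_integralClosure_iff ℤ _).2 hδ3⟩, ?_, ?_, ?_,
    ?_, ?_⟩
  · rw [← Module.finrank_mul_finrank ℚ K (IntermediateField.adjoin K {δ0}), mul_comm]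
    exact Nat.mul_le_mul_right _ hdeg
  · apply NumberField.RingOfIntegers.ext
    change δ1 ^ 2 = _
    rw [hδ2]
    simp only [map_neg]
    rfl
  · intro a b ha h
    exact desc K _ a b ha h
  · intro φ
    refine ⟨φ.comp (algebraMap K _), fun x => rfl⟩
  · exact FaithfulSMul.algebraMap_injective _ _

end Pool.Agent.H28.A4
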