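import Mathlib
import Pool.Agent.H28.A4.Bnd
import Pool.Agent.H28.A4.Fld

set_option autoImplicit false

/-!
# W1, FINITE PLACES: the class function for `b` (proved from `ideal_div`)
-/

open scoped NumberField

namespace Pool.Agent.H28.A4

open H88.A4

/-- the six elements -/
def six {S : Type} [CommRing S] (β : Blk S) (δ x1 x2 : S) : Fin 6 → S :=
  ![zf β δ 1 0 x1 x2, zf β (-δ) 1 0 x1 x2, zf β δ 0 1 x1 x2, zf β (-δ) 0 1 x1 x2,
    zf β δ 1 (-1) x1 x2, zf β (-δ) 1 (-1) x1 x2]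

theorem cls_b (K : Type) [Field K] [NumberField K] (ε : ℝ) (hε : 0 < ε) : ∃ C : ℝ, 0 < C ∧
    ∀ H : ℝ, 1 ≤ H → ∀ β : Blk (𝓞 K), β.E ≠ 0 → β.All (Bd H) →
      ∃ (N : ℕ) (cl : Row (𝓞 K) → ℕ), (N : ℝ) ≤ C * H ^ ε ∧ (∀ π, cl π < N) ∧
        ∀ π π' : Row (𝓞 K), β.E ∣ β.Ab (β.eb1 π) (β.eb2 π) (β.eb1 π) (β.eb2 π) →
          cl π = cl π' → β.E ∣ 4 * β.D1 ^ 2 * β.br π π' := by
  obtain ⟨C, hC, hcard⟩ := div_card (Module.finrank ℚ K) Module.finrank_pos ε hε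
  refine ⟨C, hC, ?_⟩
  intro H hH β hE hβ
  obtain ⟨L, _, _, f, δ, hdeg, hδ, hdesc, hemb, hinj⟩ := exists_ext K β.D1
  have hfE : f β.E ≠ 0 := fun h0 => hE (by
    apply hinj
    rw [h0, map_zero])
  have hI : (Ideal.span {f β.E} : Ideal (𝓞 L)) ≠ 0 := by
    rw [Ideal.zero_eq_bot, Ne, Ideal.span_singleton_eq_bot]
    exact hfE
  haveI : Fintype {J : Ideal (𝓞 L) // J ∣ Ideal.span {f β.E}} :=
    UniqueFactorizationMonoid.fintypeSubtypeDvd _ hI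
  let ty : Row (𝓞 K) → (Fin 6 → {J : Ideal (𝓞 L) // J ∣ Ideal.span {f β.E}}) := fun π i =>
    ⟨Ideal.span {six (mapB f β) δ (f (β.eb1 π)) (f (β.eb2 π)) i} ⊔ Ideal.span {f β.E},
      Ideal.dvd_iff_le.2 le_sup_right⟩
  refine ⟨Fintype.card (Fin 6 → {J : Ideal (𝓞 L) // J ∣ Ideal.span {f β.E}}),
    fun π => (Fintype.equivFin _ (ty π)).val, ?_, fun π => (Fintype.equivFin _ (ty π)).isLt, ?_⟩
  · rw [Fintype.card_fun, Fintype.card_fin]
    push_cast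
    have := hcard L hdeg H hH (f β.E) hfE ?_
      ((Finset.univ : Finset {J : Ideal (𝓞 L) // J ∣ Ideal.span {f β.E}}).map
        ⟨Subtype.val, Subtype.val_injective⟩) ?_
    · rwa [Finset.card_map, Finset.card_univ] at this
    · intro φ
      obtain ⟨ψ, hψ⟩ := hemb φ
      rw [hψ]
      exact E_le K H hH β hβ ψ
    · intro J hJ
      obtain ⟨J', -, rfl⟩ := Finset.mem_map.1 hJ
      exact J'.2
  · intro π π' hdvd hcl
    have hty : ty π = ty π' := (Fintype.equivFin _).injective (Fin.ext hcl)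
    have hi : ∀ i, Ideal.span {six (mapB f β) δ (f (β.eb1 π)) (f (β.eb2 π)) i} ⊔
        Ideal.span {f β.E} = Ideal.span {six (mapB f β) δ (f (β.eb1 π')) (f (β.eb2 π')) i} ⊔
        Ideal.span {f β.E} := fun i => congrArg Subtype.val (congrFun hty i)
    have hδ' : δ ^ 2 = -(mapB f β).D1 := by rw [mapB_D1]; exact hδ
    have hA : f β.E ∣ (mapB f β).Ab (f (β.eb1 π)) (f (β.eb2 π)) (f (β.eb1 π)) (f (β.eb2 π)) := by
      rw [mapB_Ab]
      exact map_dvd f hdvd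
    have c1 := cls_one (mapB f β) δ 1 0 (f (β.eb1 π)) (f (β.eb2 π)) (f (β.eb1 π')) (f (β.eb2 π'))
      (f β.E) hδ' hA (hi 0) (hi 1)
    have c2 := cls_one (mapB f β) δ 0 1 (f (β.eb1 π)) (f (β.eb2 π)) (f (β.eb1 π')) (f (β.eb2 π'))
      (f β.E) hδ' hA (hi 2) (hi 3)
    have c3 := cls_one (mapB f β) δ 1 (-1) (f (β.eb1 π)) (f (β.eb2 π)) (f (β.eb1 π'))
      (f (β.eb2 π')) (f β.E) hδ' hA (hi 4) (hi 5)
    have hw : f (β.eb1 π) * f (β.eb2 π') - f (β.eb2 π) * f (β.eb1 π') =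
        (mapB f β).D1 * f (β.br π π') := by
      rw [mapB_D1, ← map_mul, ← map_mul, ← map_sub, ← map_mul, eta_wedge]
    have c4 := cls_three (mapB f β) δ _ _ (f β.E) hδ' hw c1 c2 c3
    have c5 : f (β.E ^ 2) ∣ f ((4 * β.D1 ^ 2 * β.br π π') ^ 2) := by
      rw [mapB_D1] at c4
      simpa only [map_pow, map_mul, map_ofNat] using c4
    have c6 := hdesc _ _ (pow_ne_zero 2 hE) c5
    exact (IsIntegrallyClosed.pow_dvd_pow_iff (n := 2) (by norm_num)).1 c6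

end Pool.Agent.H28.A4
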