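import Mathlib
import Pool.Agent.H28.A4.Br

set_option autoImplicit false

/-!
# W1, FINITE PLACES: good primes that contain `D1, D2, D3` (proved)
-/

open scoped NumberField

namespace Pool.Agent.H28.A4

open H88.A4 IsDedekindDomain

variable {O : Type} [CommRing O] [IsDedekindDomain O]

/-- the case `v ∈ l`, `u ∉ l`, `v ∉ l²` -/
theorem good_c (l : HeightOneSpectrum O) {β : Blk O} {π : Row O} {r r' u v : O}
    (h : Sol β π r r' u v) (hD1 : β.D1 ∈ l.asIdeal) (hD2 : β.D2 ∈ l.asIdeal)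
    (hD3 : β.D3 ∈ l.asIdeal) (hv : v ∈ l.asIdeal) (hu : u ∉ l.asIdeal)
    (hv2 : v ∉ l.asIdeal ^ 2) :
    (β.c1 ∈ l.asIdeal ∧ β.c2 ∈ l.asIdeal ∧ β.c3 ∈ l.asIdeal) ∧ β.E ∉ l.asIdeal ^ 3 := by
  haveI := l.isPrime
  obtain ⟨k1, k2, k3, hh, hc1, hc0, -, -⟩ :=
    FP.g2 l.asIdeal (bl β) (rw4 π) r r' u v (eqs_of h) hD1 hD2 hD3 hv hu
  have k1' : β.c1 ∈ l.asIdeal := k1
  have k2' : β.c2 ∈ l.asIdeal := k2
  have k3' : β.c3 ∈ l.asIdeal := k3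
  refine ⟨⟨k1', k2', k3'⟩, ?_⟩
  have hh' : β.Ab π.p1 π.p2 π.q1 π.q2 ∈ l.asIdeal := hh
  have hc1' : β.Ac π.p1 π.p2 π.q1 π.q2 ∈ l.asIdeal := hc1
  have hc0' : β.Ac π.p1 π.p2 π.p1 π.p2 ∈ l.asIdeal := hc0
  obtain ⟨h1, h2, h3, h4⟩ := h
  have ha : β.Ab π.p1 π.p2 π.p1 π.p2 ∉ l.asIdeal := by
    intro ha
    apply hu
    rw [← h1]
    exact l.asIdeal.sub_mem (l.asIdeal.mul_mem_left _ hD1) ha
  have hD3' : β.D3 ∈ l.asIdeal ^ 2 := by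
    rw [Blk.D3, pow_two, pow_two]
    exact Ideal.sub_mem _ (Ideal.mul_mem_mul k1' k3') (Ideal.mul_mem_mul k2' k2')
  have hbq : β.Ab π.q1 π.q2 π.q1 π.q2 ∈ l.asIdeal := by
    have : β.Ab π.q1 π.q2 π.q1 π.q2 =
        r * β.D3 + r' * β.D2 - 2 * β.Ac π.p1 π.p2 π.q1 π.q2 := by rw [h3]; ring
    rw [this]
    exact l.asIdeal.sub_mem (l.asIdeal.add_mem (l.asIdeal.mul_mem_left _ hD3)
      (l.asIdeal.mul_mem_left _ hD2)) (l.asIdeal.mul_mem_left _ hc1')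
  have hD2' : β.D2 ∉ l.asIdeal ^ 2 := by
    intro hD2'
    apply hv2
    apply FP.cancel l ha
    have gr : β.Ab π.p1 π.p2 π.p1 π.p2 * β.Ac π.q1 π.q2 π.q1 π.q2 +
        β.Ac π.p1 π.p2 π.p1 π.p2 * β.Ab π.q1 π.q2 π.q1 π.q2 -
        2 * β.Ab π.p1 π.p2 π.q1 π.q2 * β.Ac π.p1 π.p2 π.q1 π.q2 =
        β.D2 * (π.p1 * π.q2 - π.p2 * π.q1) ^ 2 := by
      simp only [Blk.D2, Blk.Ab, Blk.Ac]
      ring
    have : β.Ab π.p1 π.p2 π.p1 π.p2 * v =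
        β.Ab π.p1 π.p2 π.p1 π.p2 * r' * β.D3 +
        β.Ac π.p1 π.p2 π.p1 π.p2 * β.Ab π.q1 π.q2 π.q1 π.q2 -
        2 * (β.Ab π.p1 π.p2 π.q1 π.q2 * β.Ac π.p1 π.p2 π.q1 π.q2) -
        (π.p1 * π.q2 - π.p2 * π.q1) ^ 2 * β.D2 := by
      rw [← h4]
      linear_combination -gr
    rw [this]
    refine Ideal.sub_mem _ (Ideal.sub_mem _ (Ideal.add_mem _ (Ideal.mul_mem_left _ _ hD3') ?_)
      (Ideal.mul_mem_left _ _ ?_)) (Ideal.mul_mem_left _ _ hD2')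
    · rw [pow_two]
      exact Ideal.mul_mem_mul hc0' hbq
    · rw [pow_two]
      exact Ideal.mul_mem_mul hh' hc1'
  intro hE
  have h5 : β.D1 * β.D3 ∈ l.asIdeal ^ 3 := by
    have h9 : β.D1 ∈ l.asIdeal ^ 1 := by rw [pow_one]; exact hD1
    exact FP.mul_mem_pow l h9 hD3'
  have h6 : β.D2 ^ 2 ∈ l.asIdeal ^ 3 := by
    have : β.D2 ^ 2 = β.D1 * β.D3 - β.E := by rw [Blk.E]; ring
    rw [this]
    exact Ideal.sub_mem _ h5 hE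
  have h0 : β.D2 ≠ 0 := fun h0 => hD2' (by rw [h0]; exact Ideal.zero_mem _)
  have h7 : ¬ 2 ≤ FP.od l β.D2 := fun h7 => hD2' ((FP.mem_iff l h0 2).2 h7)
  have h8 : l.intValuation (β.D2 ^ 2) = WithZero.exp (-(2 * (FP.od l β.D2 : ℤ))) := by
    rw [map_pow, FP.iv_eq l h0, ← WithZero.exp_nsmul]
    congr 1
    simp
  rw [← l.intValuation_le_pow_iff_mem, h8, WithZero.exp_le_exp] at h6
  omega

/-- the case `u ∈ l`, `v ∉ l`, `u ∉ l²` -/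
theorem good_b (l : HeightOneSpectrum O) {β : Blk O} {π : Row O} {r r' u v : O}
    (h : Sol β π r r' u v) (hD1 : β.D1 ∈ l.asIdeal) (hD2 : β.D2 ∈ l.asIdeal)
    (hD3 : β.D3 ∈ l.asIdeal) (hu : u ∈ l.asIdeal) (hv : v ∉ l.asIdeal)
    (hu2 : u ∉ l.asIdeal ^ 2) :
    (β.b1 ∈ l.asIdeal ∧ β.b2 ∈ l.asIdeal ∧ β.b3 ∈ l.asIdeal) ∧ β.E ∉ l.asIdeal ^ 3 := by
  have := good_c l (sw_Sol h) hD3 (by rw [sw_D2]; exact hD2) hD1 hu hv hu2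
  rw [sw_E] at this
  exact this

theorem br_mem_c (I : Ideal O) {β : Blk O} (π π' : Row O) (h1 : β.c1 ∈ I) (h2 : β.c2 ∈ I)
    (h3 : β.c3 ∈ I) (hD : β.D1 ∈ I) : β.br π π' ∈ I := by
  have h4 : β.D3 ∈ I := by
    rw [Blk.D3, pow_two]
    exact I.sub_mem (I.mul_mem_right _ h1) (I.mul_mem_right _ h2)
  rw [Blk.br]
  refine I.add_mem (I.sub_mem (I.add_mem (I.add_mem (I.sub_mem (I.mul_mem_right _ hD)
    (I.mul_mem_right _ ?_)) (I.mul_mem_right _ ?_)) (I.mul_mem_right _ ?_))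
    (I.mul_mem_right _ ?_)) (I.mul_mem_right _ h4)
  · exact I.sub_mem (I.mul_mem_left _ h2) (I.mul_mem_left _ h1)
  · exact I.sub_mem (I.mul_mem_left _ h3) (I.mul_mem_left _ h2)
  · exact I.sub_mem (I.mul_mem_left _ h2) (I.mul_mem_left _ h1)
  · exact I.sub_mem (I.mul_mem_left _ h3) (I.mul_mem_left _ h2)

theorem br_mem_b (I : Ideal O) {β : Blk O} (π π' : Row O) (h1 : β.b1 ∈ I) (h2 : β.b2 ∈ I)
    (h3 : β.b3 ∈ I) (hD : β.D3 ∈ I) : β.br π π' ∈ I := by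
  rw [← sw_br]
  exact br_mem_c I (β := sw β) _ _ h1 h2 h3 hD

end Pool.Agent.H28.A4
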