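import Mathlib
import Pool.Agent.H28.A4.Good

set_option autoImplicit false

/-!
# W1, FINITE PLACES: the local conclusion (proved)
-/

open scoped NumberField

namespace Pool.Agent.H28.A4

open H88.A4 IsDedekindDomain
open FP (od mem_iff mem_od mul_mem_pow pow_antitone cancel g1 iv_eq)

variable {O : Type} [CommRing O] [IsDedekindDomain O]

theorem od_mul (l : HeightOneSpectrum O) {x y : O} (hx : x ≠ 0) (hy : y ≠ 0) :
    od l (x * y) = od l x + od l y := by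
  have h := iv_eq l (mul_ne_zero hx hy)
  rw [map_mul, iv_eq l hx, iv_eq l hy, ← WithZero.exp_add, WithZero.exp_inj] at h
  omega

theorem cancel_od (l : HeightOneSpectrum O) {x y : O} (hx : x ≠ 0) {n : ℕ}
    (h : x * y ∈ l.asIdeal ^ n) : y ∈ l.asIdeal ^ (n - od l x) := by
  rcases eq_or_ne y 0 with rfl | hy
  · exact Ideal.zero_mem _
  · rw [mem_iff l (mul_ne_zero hx hy), od_mul l hx hy] at h
    rw [mem_iff l hy]
    omega

theorem mul_mem_le (l : HeightOneSpectrum O) {x y : O} {a b c : ℕ} (hx : x ∈ l.asIdeal ^ a)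
    (hy : y ∈ l.asIdeal ^ b) (h : c ≤ a + b) : x * y ∈ l.asIdeal ^ c :=
  pow_antitone l h (mul_mem_pow l hx hy)

theorem pow_mem_mul (l : HeightOneSpectrum O) {x : O} {a : ℕ} (k : ℕ) (h : x ∈ l.asIdeal ^ a) :
    x ^ k ∈ l.asIdeal ^ (k * a) := by
  rw [Nat.mul_comm k a, pow_mul]
  exact Ideal.pow_mem_pow h k

theorem od_lt_of_nmem (l : HeightOneSpectrum O) {x : O} {k : ℕ} (h : x ∉ l.asIdeal ^ k) :
    x ≠ 0 ∧ od l x < k := by
  have h0 : x ≠ 0 := fun h0 => h (by rw [h0]; exact Ideal.zero_mem _)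
  exact ⟨h0, by rw [mem_iff l h0] at h; omega⟩

/-- the primes that contain `m` -/
theorem loc_bad (l : HeightOneSpectrum O) {β : Blk O} {π : Row O} {r r' u v m M n : O}
    (h : Sol β π r r' u v) (hE : β.E ≠ 0) (hm : m ≠ 0) (hml : m ∈ l.asIdeal) (hu : u ≠ 0)
    (hv : v ≠ 0) (h2 : (2 : O) ≠ 0) (h3 : (3 : O) ≠ 0) (hu' : od l u ≤ 2 * od l M + 1)
    (hv' : od l v ≤ 2 * od l M + 1) (h2m : od l (2 : O) ≤ od l m) (h3m : od l (3 : O) ≤ od l m)
    (hMm : od l M ≤ od l m) (hb : 4 * β.D1 ^ 2 * n ∈ l.asIdeal ^ od l β.E)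
    (hc : 4 * β.D3 ^ 2 * n ∈ l.asIdeal ^ od l β.E) : m ^ 32 * n ∈ l.asIdeal ^ od l β.E := by
  have he : 1 ≤ od l m := (mem_iff l hm 1).1 (by rwa [pow_one])
  have hmp : m ^ 32 ∈ l.asIdeal ^ (32 * od l m) := by
    exact pow_mem_mul l 32 (mem_od l m hm)
  have side : ∀ D : O, D ∉ l.asIdeal ^ (14 * od l m + 1) →
      4 * D ^ 2 * n ∈ l.asIdeal ^ od l β.E → m ^ 32 * n ∈ l.asIdeal ^ od l β.E := by
    intro D hD hn
    obtain ⟨hD0, hDo⟩ := od_lt_of_nmem l hD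
    have e1 : 4 * D ^ 2 * n = (2 * 2 * (D * D)) * n := by ring
    rw [e1] at hn
    have h4 := cancel_od l (mul_ne_zero (mul_ne_zero h2 h2) (mul_ne_zero hD0 hD0)) hn
    refine mul_mem_le l hmp h4 ?_
    rw [od_mul l (mul_ne_zero h2 h2) (mul_ne_zero hD0 hD0), od_mul l h2 h2, od_mul l hD0 hD0]
    omega
  by_cases k1 : β.D1 ∈ l.asIdeal ^ (14 * od l m + 1)
  swap
  · exact side _ k1 hb
  by_cases k3 : β.D3 ∈ l.asIdeal ^ (14 * od l m + 1)
  swap
  · exact side _ k3 hc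
  have k2 : β.D2 ∉ l.asIdeal ^ (14 * od l m + 1) := by
    intro k2
    have hg : 9 * u ^ 2 * v ^ 2 ∈ l.asIdeal ^ (14 * od l m + 1) := by
      refine (Ideal.span_le.2 ?_) (g1 (bl β) (rw4 π) r r' u v (eqs_of h))
      intro z hz
      rcases hz with rfl | rfl | rfl
      · exact k1
      · exact k2
      · exact k3
    have e2 : 9 * u ^ 2 * v ^ 2 = (3 * 3) * ((u * u) * (v * v)) := by ring
    rw [e2, mem_iff l (mul_ne_zero (mul_ne_zero h3 h3) (mul_ne_zero (mul_ne_zero hu hu)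
      (mul_ne_zero hv hv))), od_mul l (mul_ne_zero h3 h3) (mul_ne_zero (mul_ne_zero hu hu)
      (mul_ne_zero hv hv)), od_mul l h3 h3, od_mul l (mul_ne_zero hu hu) (mul_ne_zero hv hv),
      od_mul l hu hu, od_mul l hv hv] at hg
    omega
  obtain ⟨hD0, hDo⟩ := od_lt_of_nmem l k2
  have hEo : od l β.E < 2 * (14 * od l m + 1) := by
    by_contra hcon
    have h5 : β.E ∈ l.asIdeal ^ (2 * (14 * od l m + 1)) := (mem_iff l hE _).2 (not_lt.1 hcon)
    have h6 : β.D1 * β.D3 ∈ l.asIdeal ^ (2 * (14 * od l m + 1)) :=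
      mul_mem_le l k1 k3 (by omega)
    have h7 : β.D2 * β.D2 ∈ l.asIdeal ^ (2 * (14 * od l m + 1)) := by
      have : β.D2 * β.D2 = β.D1 * β.D3 - β.E := by rw [Blk.E]; ring
      rw [this]
      exact Ideal.sub_mem _ h6 h5
    rw [mem_iff l (mul_ne_zero hD0 hD0), od_mul l hD0 hD0] at h7
    omega
  exact Ideal.mul_mem_right _ _ (pow_antitone l (by omega) hmp)

/-- the primes that do not contain `m` -/
theorem loc_good (l : HeightOneSpectrum O) {β : Blk O} {π π' : Row O} {r r' u v m x : O}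
    (h : Sol β π r r' u v) (hE : β.E ≠ 0) (hml : m ∉ l.asIdeal)
    (h2l : (2 : O) ∉ l.asIdeal) (h3l : (3 : O) ∉ l.asIdeal)
    (hu2 : u ∉ l.asIdeal ^ 2) (hv2 : v ∉ l.asIdeal ^ 2) (hcop : u ∉ l.asIdeal ∨ v ∉ l.asIdeal)
    (hb : 4 * β.D1 ^ 2 * β.br π π' ∈ l.asIdeal ^ od l β.E)
    (hc : 4 * β.D3 ^ 2 * β.br π π' ∈ l.asIdeal ^ od l β.E)
    (hxb : β.b1 ∈ l.asIdeal → β.b2 ∈ l.asIdeal → β.b3 ∈ l.asIdeal → β.D3 ∈ l.asIdeal →
      x ∈ l.asIdeal)
    (hxc : β.c1 ∈ l.asIdeal → β.c2 ∈ l.asIdeal → β.c3 ∈ l.asIdeal → β.D1 ∈ l.asIdeal →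
      x ∈ l.asIdeal) : m ^ 32 * x * β.br π π' ∈ l.asIdeal ^ od l β.E := by
  have := l.isPrime
  have side : ∀ D : O, D ∉ l.asIdeal → 4 * D ^ 2 * β.br π π' ∈ l.asIdeal ^ od l β.E →
      m ^ 32 * x * β.br π π' ∈ l.asIdeal ^ od l β.E := by
    intro D hD hn
    have h4 : 4 * D ^ 2 ∉ l.asIdeal := by
      intro h4
      have e1 : 4 * D ^ 2 = (2 * 2) * (D * D) := by ring
      rw [e1] at h4
      rcases this.mem_or_mem h4 with h5 | h5
      · rcases this.mem_or_mem h5 with h6 | h6 <;> exact h2l h6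
      · rcases this.mem_or_mem h5 with h6 | h6 <;> exact hD h6
    exact Ideal.mul_mem_left _ _ (cancel l h4 hn)
  by_cases k1 : β.D1 ∈ l.asIdeal
  swap
  · exact side _ k1 hb
  by_cases k3 : β.D3 ∈ l.asIdeal
  swap
  · exact side _ k3 hc
  by_cases k2 : β.D2 ∈ l.asIdeal
  swap
  · have hE0 : β.E ∉ l.asIdeal := by
      intro hE1
      apply k2
      apply this.mem_of_pow_mem 2
      have : β.D2 ^ 2 = β.D1 * β.D3 - β.E := by rw [Blk.E]; ring
      rw [this]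
      exact Ideal.sub_mem _ (Ideal.mul_mem_right _ _ k1) hE1
    have h0 : od l β.E = 0 := by
      by_contra h0
      apply hE0
      have := (mem_iff l hE 1).2 (by omega)
      rwa [pow_one] at this
    rw [h0, pow_zero, Ideal.one_eq_top]
    trivial
  have fin : ∀ D : O, x ∈ l.asIdeal → β.br π π' ∈ l.asIdeal → β.E ∉ l.asIdeal ^ 3 →
      m ^ 32 * x * β.br π π' ∈ l.asIdeal ^ od l β.E := by
    intro D hx hn h3
    obtain ⟨-, h4⟩ := od_lt_of_nmem l h3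
    have hx' : m ^ 32 * x ∈ l.asIdeal ^ 1 := by
      rw [pow_one]
      exact Ideal.mul_mem_left _ _ hx
    have hn' : β.br π π' ∈ l.asIdeal ^ 1 := by
      rw [pow_one]
      exact hn
    exact mul_mem_le l hx' hn' (by omega)
  have huv : u ∈ l.asIdeal ∨ v ∈ l.asIdeal := by
    have hg : 9 * u ^ 2 * v ^ 2 ∈ l.asIdeal := by
      refine (Ideal.span_le.2 ?_) (g1 (bl β) (rw4 π) r r' u v (eqs_of h))
      intro z hz
      rcases hz with rfl | rfl | rfl
      · exact k1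
      · exact k2
      · exact k3
    rcases this.mem_or_mem hg with h5 | h5
    · rcases this.mem_or_mem h5 with h6 | h6
      · exfalso
        have e9 : (9 : O) = 3 * 3 := by norm_num
        rw [e9] at h6
        rcases this.mem_or_mem h6 with h7 | h7 <;> exact h3l h7
      · exact Or.inl (this.mem_of_pow_mem 2 h6)
    · exact Or.inr (this.mem_of_pow_mem 2 h5)
  rcases hcop with hu | hv
  · have hv := huv.resolve_left hu
    obtain ⟨⟨c1, c2, c3⟩, hE3⟩ := good_c l h k1 k2 k3 hv hu hv2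
    exact fin 0 (hxc c1 c2 c3 k1) (br_mem_c _ π π' c1 c2 c3 k1) hE3
  · have hu := huv.resolve_right hv
    obtain ⟨⟨b1, b2, b3⟩, hE3⟩ := good_b l h k1 k2 k3 hu hv hu2
    exact fin 0 (hxb b1 b2 b3 k3) (br_mem_b _ π π' b1 b2 b3 k3) hE3

end Pool.Agent.H28.A4
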