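import Mathlib
import Pool.Agent.H28.A4.Loc
import Pool.Agent.H28.A4.ClB
import Pool.Agent.H88.A4.Iface

set_option autoImplicit false

/-!
# W1, FINITE PLACES: `LocStmt` (proved from `ideal_div`, `nm_eq`)
-/

open scoped NumberField

namespace Pool.Agent.H28.A4

open H88.A4 IsDedekindDomain
open FP (od mem_iff mem_od mul_mem_pow pow_antitone cancel iv_eq)

section prod

variable {O : Type} [CommRing O] [IsDedekindDomain O]

theorem cop_of_ne {l l' : HeightOneSpectrum O} (h : l ≠ l') :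
    IsCoprime l.asIdeal l'.asIdeal := by
  have := l.isMaximal
  have := l'.isMaximal
  exact Ideal.isCoprime_of_isMaximal fun h' => h (HeightOneSpectrum.ext h')

theorem sqf_prod (S : Finset (HeightOneSpectrum O)) : Squarefree (∏ l ∈ S, l.asIdeal) :=
  Finset.squarefree_prod_of_pairwise_isCoprime (fun _ _ _ _ h => (cop_of_ne h).isRelPrime)
    fun l _ => l.irreducible.squarefree

theorem mem_prod (S : Finset (HeightOneSpectrum O)) (x : O) (h : ∀ l ∈ S, x ∈ l.asIdeal) :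
    x ∈ ∏ l ∈ S, l.asIdeal := by
  have : (∏ l ∈ S, l.asIdeal) ∣ Ideal.span {x} :=
    Finset.prod_dvd_of_coprime (fun _ _ _ _ h => cop_of_ne h) fun l hl =>
      Ideal.dvd_span_singleton.2 (h l hl)
  exact Ideal.dvd_span_singleton.1 this

theorem mem_of_prod (S : Finset (HeightOneSpectrum O)) (x : O) (l : HeightOneSpectrum O)
    (hl : l ∈ S) (h : x ∈ ∏ l ∈ S, l.asIdeal) : x ∈ l.asIdeal :=
  Ideal.dvd_iff_le.1 (Finset.dvd_prod_of_mem (fun l : HeightOneSpectrum O => l.asIdeal) hl) h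

theorem cop_prod (S T : Finset (HeightOneSpectrum O)) (h : Disjoint S T) :
    IsCoprime (∏ l ∈ S, l.asIdeal) (∏ l ∈ T, l.asIdeal) :=
  IsCoprime.prod_left fun _ hl => IsCoprime.prod_right fun _ hl' =>
    cop_of_ne fun e => (Finset.disjoint_left.1 h hl) (e ▸ hl')

theorem fin_dvd (x : O) (hx : x ≠ 0) : {l : HeightOneSpectrum O | x ∈ l.asIdeal}.Finite := by
  have h0 : (Ideal.span {x} : Ideal O) ≠ 0 := by
    rw [Ideal.zero_eq_bot, Ne, Ideal.span_singleton_eq_bot]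
    exact hx
  refine (Ideal.finite_factors h0).subset fun l hl => ?_
  exact Ideal.dvd_span_singleton.2 hl

/-- the squarefree ideals `gb`, `gc` -/
theorem exists_gg (β : Blk O) (hE : β.E ≠ 0) (m : O) : ∃ gb gc : Ideal O, Squarefree gb ∧
    Squarefree gc ∧ IsCoprime gb gc ∧ (β.b1 ∈ gb ∧ β.b2 ∈ gb ∧ β.b3 ∈ gb) ∧
    (β.c1 ∈ gc ∧ β.c2 ∈ gc ∧ β.c3 ∈ gc ∧ β.D1 ∈ gc) ∧
    ∀ l : HeightOneSpectrum O, m ∉ l.asIdeal → ∀ x ∈ gb * gc,
      (β.b1 ∈ l.asIdeal → β.b2 ∈ l.asIdeal → β.b3 ∈ l.asIdeal → β.D3 ∈ l.asIdeal →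
        x ∈ l.asIdeal) ∧
      (β.c1 ∈ l.asIdeal → β.c2 ∈ l.asIdeal → β.c3 ∈ l.asIdeal → β.D1 ∈ l.asIdeal →
        x ∈ l.asIdeal) := by
  classical
  have hEb : ∀ l : HeightOneSpectrum O, (β.b1 ∈ l.asIdeal ∧ β.b2 ∈ l.asIdeal ∧
      β.b3 ∈ l.asIdeal ∧ β.D3 ∈ l.asIdeal) → β.E ∈ l.asIdeal := by
    rintro l ⟨h1, h2, h3, h4⟩
    have h5 : β.D2 ∈ l.asIdeal := by
      rw [Blk.D2]
      refine l.asIdeal.sub_mem (l.asIdeal.add_mem (l.asIdeal.mul_mem_right _ h1)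
        (l.asIdeal.mul_mem_right _ h3)) (l.asIdeal.mul_mem_right _ (l.asIdeal.mul_mem_left _ h2))
    rw [Blk.E, pow_two]
    exact l.asIdeal.sub_mem (l.asIdeal.mul_mem_left _ h4) (l.asIdeal.mul_mem_left _ h5)
  have hEc : ∀ l : HeightOneSpectrum O, (β.c1 ∈ l.asIdeal ∧ β.c2 ∈ l.asIdeal ∧
      β.c3 ∈ l.asIdeal ∧ β.D1 ∈ l.asIdeal) → β.E ∈ l.asIdeal := by
    rintro l ⟨h1, h2, h3, h4⟩
    have h5 : β.D2 ∈ l.asIdeal := by
      rw [Blk.D2]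
      refine l.asIdeal.sub_mem (l.asIdeal.add_mem (l.asIdeal.mul_mem_left _ h3)
        (l.asIdeal.mul_mem_left _ h1)) (l.asIdeal.mul_mem_left _ h2)
    rw [Blk.E, pow_two]
    exact l.asIdeal.sub_mem (l.asIdeal.mul_mem_right _ h4) (l.asIdeal.mul_mem_left _ h5)
  have hfin := fin_dvd β.E hE
  have hSb : {l : HeightOneSpectrum O | m ∉ l.asIdeal ∧ (β.b1 ∈ l.asIdeal ∧ β.b2 ∈ l.asIdeal ∧
      β.b3 ∈ l.asIdeal ∧ β.D3 ∈ l.asIdeal)}.Finite := hfin.subset fun l hl => hEb l hl.2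
  have hSc : {l : HeightOneSpectrum O | (m ∉ l.asIdeal ∧ (β.c1 ∈ l.asIdeal ∧ β.c2 ∈ l.asIdeal ∧
      β.c3 ∈ l.asIdeal ∧ β.D1 ∈ l.asIdeal)) ∧ ¬ (β.b1 ∈ l.asIdeal ∧ β.b2 ∈ l.asIdeal ∧
      β.b3 ∈ l.asIdeal ∧ β.D3 ∈ l.asIdeal)}.Finite := hfin.subset fun l hl => hEc l hl.1.2
  refine ⟨∏ l ∈ hSb.toFinset, l.asIdeal, ∏ l ∈ hSc.toFinset, l.asIdeal, sqf_prod _, sqf_prod _,
    cop_prod _ _ ?_, ⟨mem_prod _ _ ?_, mem_prod _ _ ?_, mem_prod _ _ ?_⟩, ⟨mem_prod _ _ ?_,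
    mem_prod _ _ ?_, mem_prod _ _ ?_, mem_prod _ _ ?_⟩, ?_⟩
  · rw [Finset.disjoint_left]
    intro l hl hl'
    rw [Set.Finite.mem_toFinset] at hl hl'
    exact hl'.2 hl.2
  · intro l hl
    rw [Set.Finite.mem_toFinset] at hl
    exact hl.2.1
  · intro l hl
    rw [Set.Finite.mem_toFinset] at hl
    exact hl.2.2.1
  · intro l hl
    rw [Set.Finite.mem_toFinset] at hl
    exact hl.2.2.2.1
  · intro l hl
    rw [Set.Finite.mem_toFinset] at hl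
    exact hl.1.2.1
  · intro l hl
    rw [Set.Finite.mem_toFinset] at hl
    exact hl.1.2.2.1
  · intro l hl
    rw [Set.Finite.mem_toFinset] at hl
    exact hl.1.2.2.2.1
  · intro l hl
    rw [Set.Finite.mem_toFinset] at hl
    exact hl.1.2.2.2.2
  · intro l hm x hx
    have hxb := Ideal.mul_le_left hx
    have hxc := Ideal.mul_le_right hx
    have key : (β.b1 ∈ l.asIdeal ∧ β.b2 ∈ l.asIdeal ∧ β.b3 ∈ l.asIdeal ∧ β.D3 ∈ l.asIdeal) →
        x ∈ l.asIdeal := fun h => mem_of_prod _ x l (by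
          rw [Set.Finite.mem_toFinset]
          exact ⟨hm, h⟩) hxb
    refine ⟨fun h1 h2 h3 h4 => key ⟨h1, h2, h3, h4⟩, fun h1 h2 h3 h4 => ?_⟩
    by_cases hk : β.b1 ∈ l.asIdeal ∧ β.b2 ∈ l.asIdeal ∧ β.b3 ∈ l.asIdeal ∧ β.D3 ∈ l.asIdeal
    · exact key hk
    · refine mem_of_prod _ x l ?_ hxc
      rw [Set.Finite.mem_toFinset]
      exact ⟨⟨hm, h1, h2, h3, h4⟩, hk⟩

theorem od_sq (l : HeightOneSpectrum O) {u M : O} (hu : u ≠ 0) (hM : M ≠ 0)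
    (h : ∀ I : Ideal O, I ^ 2 ∣ Ideal.span {u} → I ∣ Ideal.span {M}) :
    od l u ≤ 2 * od l M + 1 := by
  by_contra hcon
  have h1 : u ∈ l.asIdeal ^ ((od l M + 1) * 2) := (mem_iff l hu _).2 (by omega)
  have h2 : (l.asIdeal ^ (od l M + 1)) ^ 2 ∣ Ideal.span {u} := by
    rw [← pow_mul]
    exact Ideal.dvd_span_singleton.2 h1
  have h3 := Ideal.dvd_span_singleton.1 (h _ h2)
  rw [mem_iff l hM] at h3
  omega

end prod

end Pool.Agent.H28.A4
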