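import Mathlib
import Pool.Agent.H28.A4.Fin

set_option autoImplicit false

/-!
# W1, FINITE PLACES: `LocStmt K` (proved from `ideal_div`, `nm_eq`)
-/

open scoped NumberField

namespace Pool.Agent.H28.A4

open H88.A4 IsDedekindDomain
open FP (od mem_iff mem_od mul_mem_pow pow_antitone cancel iv_eq dvd_of_local)

variable (K : Type) [Field K] [NumberField K]

/-- the conclusion from the two divisibilities, at all primes -/
theorem fin_dvd_all (M : ℕ) (hM : M ≠ 0) {β : Blk (𝓞 K)} {π π' : Row (𝓞 K)}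
    {u v r r' x : 𝓞 K} {C s t : ℝ} (hE : β.E ≠ 0) (ha : Adm M C s t u v) (h : Sol β π r r' u v)
    (hb : β.E ∣ 4 * β.D1 ^ 2 * β.br π π') (hc : β.E ∣ 4 * β.D3 ^ 2 * β.br π π')
    (hx : ∀ l : HeightOneSpectrum (𝓞 K), ((6 * M : ℕ) : 𝓞 K) ∉ l.asIdeal →
      (β.b1 ∈ l.asIdeal → β.b2 ∈ l.asIdeal → β.b3 ∈ l.asIdeal → β.D3 ∈ l.asIdeal →
        x ∈ l.asIdeal) ∧
      (β.c1 ∈ l.asIdeal → β.c2 ∈ l.asIdeal → β.c3 ∈ l.asIdeal → β.D1 ∈ l.asIdeal →
        x ∈ l.asIdeal)) :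
    β.E ∣ ((6 * M : ℕ) : 𝓞 K) ^ 32 * x * β.br π π' := by
  have hMO : (M : 𝓞 K) ≠ 0 := by exact_mod_cast hM
  have h2 : (2 : 𝓞 K) ≠ 0 := by exact_mod_cast (show (2 : ℕ) ≠ 0 by norm_num)
  have h3 : (3 : 𝓞 K) ≠ 0 := by exact_mod_cast (show (3 : ℕ) ≠ 0 by norm_num)
  have e6 : ((6 * M : ℕ) : 𝓞 K) = 2 * (3 * (M : 𝓞 K)) := by push_cast; ring
  have hm : ((6 * M : ℕ) : 𝓞 K) ≠ 0 := by
    rw [e6]
    exact mul_ne_zero h2 (mul_ne_zero h3 hMO)
  apply dvd_of_local hE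
  intro l
  have hbl : 4 * β.D1 ^ 2 * β.br π π' ∈ l.asIdeal ^ od l β.E := by
    obtain ⟨k, hk⟩ := hb
    rw [hk]
    exact Ideal.mul_mem_right _ _ (mem_od l β.E hE)
  have hcl : 4 * β.D3 ^ 2 * β.br π π' ∈ l.asIdeal ^ od l β.E := by
    obtain ⟨k, hk⟩ := hc
    rw [hk]
    exact Ideal.mul_mem_right _ _ (mem_od l β.E hE)
  have hod : od l ((6 * M : ℕ) : 𝓞 K) = od l (2 : 𝓞 K) + (od l (3 : 𝓞 K) + od l (M : 𝓞 K)) := by
    rw [e6, od_mul l h2 (mul_ne_zero h3 hMO), od_mul l h3 hMO]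
  by_cases hml : ((6 * M : ℕ) : 𝓞 K) ∈ l.asIdeal
  · have := loc_bad l h hE hm hml ha.u0 ha.v0 h2 h3 (od_sq l ha.u0 hMO ha.squ)
      (od_sq l ha.v0 hMO ha.sqv) (by omega) (by omega) (by omega) hbl hcl
    have e : ((6 * M : ℕ) : 𝓞 K) ^ 32 * x * β.br π π' =
        x * (((6 * M : ℕ) : 𝓞 K) ^ 32 * β.br π π') := by ring
    rw [e]
    exact Ideal.mul_mem_left _ _ this
  · have h2l : (2 : 𝓞 K) ∉ l.asIdeal := fun h' => hml (by
      rw [e6]; exact Ideal.mul_mem_right _ _ h')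
    have h3l : (3 : 𝓞 K) ∉ l.asIdeal := fun h' => hml (by
      rw [e6]; exact Ideal.mul_mem_left _ _ (Ideal.mul_mem_right _ _ h'))
    have hMl : (M : 𝓞 K) ∉ l.asIdeal := fun h' => hml (by
      rw [e6]; exact Ideal.mul_mem_left _ _ (Ideal.mul_mem_left _ _ h'))
    have hu2 : u ∉ l.asIdeal ^ 2 := fun h' => hMl
      (Ideal.dvd_span_singleton.1 (ha.squ _ (Ideal.dvd_span_singleton.2 h')))
    have hv2 : v ∉ l.asIdeal ^ 2 := fun h' => hMl
      (Ideal.dvd_span_singleton.1 (ha.sqv _ (Ideal.dvd_span_singleton.2 h')))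
    have hcop : u ∉ l.asIdeal ∨ v ∉ l.asIdeal := by
      by_contra hcon
      push Not at hcon
      apply hMl
      refine (Ideal.span_le.2 ?_) ha.cop
      intro z hz
      rcases hz with rfl | rfl
      · exact hcon.1
      · exact hcon.2
    exact loc_good l h hE hml h2l h3l hu2 hv2 hcop hbl hcl (hx l hml).1 (hx l hml).2

theorem locStmt : LocStmt K := by
  intro M hM
  refine ⟨(6 * M) ^ 32, pow_ne_zero _ (by omega), ?_⟩
  intro ε hε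
  obtain ⟨C, hC, hcl⟩ := cls_b K (ε / 2) (by linarith)
  refine ⟨C ^ 2, by positivity, ?_⟩
  intro H hH β hE _ hβ
  obtain ⟨gb, gc, g1, g2, g3, g4, g5, g6⟩ := exists_gg β hE ((6 * M : ℕ) : 𝓞 K)
  refine ⟨gb, gc, g1, g2, g3, g4, g5, ?_⟩
  obtain ⟨N1, cl1, hN1, hlt1, hd1⟩ := hcl H hH β hE hβ
  obtain ⟨N2, cl2, hN2, hlt2, hd2⟩ := hcl H hH (sw β) (by rw [sw_E]; exact hE)
    ⟨hβ.2.2.2.1, hβ.2.2.2.2.1, hβ.2.2.2.2.2, hβ.1, hβ.2.1, hβ.2.2.1⟩
  refine ⟨fun π => cl1 π * N2 + cl2 (swr π), ?_, ?_⟩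
  · intro π
    have h1 : cl1 π * N2 + cl2 (swr π) ≤ N1 * N2 := by
      have h3 := hlt1 π
      have h4 := hlt2 (swr π)
      nlinarith
    have h2 : ((cl1 π * N2 + cl2 (swr π) : ℕ) : ℝ) ≤ (N1 : ℝ) * N2 := by exact_mod_cast h1
    refine h2.trans ?_
    have hH0 : 0 < H := by linarith
    calc (N1 : ℝ) * N2 ≤ (C * H ^ (ε / 2)) * (C * H ^ (ε / 2)) :=
          mul_le_mul hN1 hN2 (by positivity) (by positivity)
      _ = C ^ 2 * (H ^ (ε / 2) * H ^ (ε / 2)) := by ring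
      _ = C ^ 2 * H ^ ε := by rw [← Real.rpow_add hH0, add_halves]
  · intro C0 s t u v u' v' r r' ρ ρ' π π' ha hs _ _ hcleq x hx
    have e1 : cl2 (swr π) = cl2 (swr π') := by
      have h3 := hlt2 (swr π)
      have h4 := hlt2 (swr π')
      have h5 := congrArg (fun k => k % N2) hcleq
      simp only [Nat.mul_add_mod_of_lt h3, Nat.mul_add_mod_of_lt h4] at h5
      exact h5
    have e2 : cl1 π = cl1 π' := by
      have h3 : cl1 π * N2 = cl1 π' * N2 := by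
        have h6 : cl1 π * N2 + cl2 (swr π) = cl1 π' * N2 + cl2 (swr π') := hcleq
        omega
      have h4 := hlt2 (swr π)
      exact Nat.eq_of_mul_eq_mul_right (by omega) h3
    have d1 := hd1 π π' ⟨u, (E_mul hs).symm⟩ e2
    have d2 := hd2 (swr π) (swr π') ⟨v, (E_mul (sw_Sol hs)).symm⟩ e1
    rw [sw_E, sw_D1, sw_br] at d2
    have := fin_dvd_all K M hM hE ha hs d1 d2 (x := x) fun l hl => g6 l hl x hx
    push_cast at this ⊢
    exact this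

end Pool.Agent.H28.A4
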